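import Pool.Agent.PLap.Main
import Pool.Agent.PLap.W0

/-!
# Extremal values of the ratios of first eigenvalues of the p-Laplacian (MP_d18ab3_an)

For all `1 < q < p` the three statements (a), (b), (c) of the problem hold.
The proof is in `Pool/Agent/PLap`; the paper version is in the headers of those modules.
-/

set_option autoImplicit false

open MeasureTheory Set Filter Topology
open scoped ENNReal ContDiff

namespace Pool.Agent.Results.MP_d18ab3_an.PLapRatio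

/-- `u` is a smooth function with compact support contained in `Ω`. -/
def TestFn {F : Type*} [NormedAddCommGroup F] [NormedSpace ℝ F] (Ω : Set F) (u : F → ℝ) : Prop :=
  ContDiff ℝ ∞ u ∧ HasCompactSupport u ∧ tsupport u ⊆ Ω

/-- `u ∈ W₀^{1,p}(Ω)` with weak gradient `G`: the pair `(u, G)` is a limit in `L^p` of pairs
`(φ n, fderiv φ n)` with test functions `φ n`. -/
def MemW0 {F : Type*} [NormedAddCommGroup F] [NormedSpace ℝ F] [MeasureSpace F]
    (p : ℝ) (Ω : Set F) (u : F → ℝ) (G : F → F →L[ℝ] ℝ) : Prop :=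
  MemLp u (ENNReal.ofReal p) volume ∧ MemLp G (ENNReal.ofReal p) volume ∧
    ∃ φ : ℕ → F → ℝ, (∀ n, TestFn Ω (φ n)) ∧
      Tendsto (fun n => eLpNorm (fun x => φ n x - u x) (ENNReal.ofReal p) volume) atTop (𝓝 0) ∧
      Tendsto (fun n => eLpNorm (fun x => fderiv ℝ (φ n) x - G x) (ENNReal.ofReal p) volume)
        atTop (𝓝 0)

/-- The first Dirichlet eigenvalue `λ₁(p; Ω)` of the p-Laplacian: infimum of the Rayleigh
quotients `∫ |∇u|^p / ∫ |u|^p` over `u ∈ W₀^{1,p}(Ω)`, `u ≠ 0`. -/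
noncomputable def eig {F : Type*} [NormedAddCommGroup F] [NormedSpace ℝ F] [MeasureSpace F]
    (p : ℝ) (Ω : Set F) : ℝ :=
  sInf {t : ℝ | ∃ (u : F → ℝ) (G : F → F →L[ℝ] ℝ), MemW0 p Ω u G ∧ ¬ u =ᵐ[volume] (fun _ => 0) ∧
    t = (∫ x, ‖G x‖ ^ p) / ∫ x, |u x| ^ p}

/-- The Euclidean plane. -/
abbrev Plane := EuclideanSpace ℝ (Fin 2)

/-- The class `𝒦` of nonempty bounded open convex subsets of the plane. -/
def K : Set (Set Plane) := {Ω | IsOpen Ω ∧ Convex ℝ Ω ∧ Bornology.IsBounded Ω ∧ Ω.Nonempty}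

/-- `λ₁(p; Ω)^{1/p} / λ₁(q; Ω)^{1/q}` (for planar sets: `ℛ_{p,q}(Ω)`). -/
noncomputable def ratio {F : Type*} [NormedAddCommGroup F] [NormedSpace ℝ F] [MeasureSpace F]
    (p q : ℝ) (Ω : Set F) : ℝ := eig p Ω ^ (1 / p) / eig q Ω ^ (1 / q)

/-- `C_{p,q}`: the ratio for the interval `(0, 1)`. -/
noncomputable def C (p q : ℝ) : ℝ := ratio p q (Ioo (0 : ℝ) 1)

/-- For all `1 < q < p`: (a) the infimum of the ratio over `K` is attained; (b) its supremum is `C p q`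
and is not attained; (c) the ratio tends to `C p q` along every sequence of sets of `K` of area 1
whose diameters tend to infinity. Moreover (as recalled in the problem) the value of the ratio is the
same for all bounded open intervals, and all the eigenvalues involved are positive. -/
theorem result (p q : ℝ) (hq : 1 < q) (hqp : q < p) :
    (∃ Ω ∈ K, ∀ Ω' ∈ K, ratio p q Ω ≤ ratio p q Ω') ∧
    (IsLUB (ratio p q '' K) (C p q) ∧ ∀ Ω ∈ K, ratio p q Ω ≠ C p q) ∧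
    (∀ Ω : ℕ → Set Plane, (∀ k, Ω k ∈ K) → (∀ k, volume (Ω k) = 1) →
      Tendsto (fun k => Metric.diam (Ω k)) atTop atTop →
      Tendsto (fun k => ratio p q (Ω k)) atTop (𝓝 (C p q))) ∧
    (∀ a b : ℝ, a < b → ratio p q (Ioo a b) = C p q ∧
      0 < eig p (Ioo a b) ∧ 0 < eig q (Ioo a b)) ∧
    (∀ Ω ∈ K, 0 < eig p Ω ∧ 0 < eig q Ω) := by
  have hp : 1 < p := hq.trans hqp
  have e2 : ∀ {r : ℝ}, 1 < r → ∀ Ω : Set Plane, eig r Ω = Pool.Agent.PLap.lam r Ω :=
    fun hr Ω => Pool.Agent.PLap.lam1_eq hr Ω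
  have e1 : ∀ {r : ℝ}, 1 < r → ∀ Ω : Set ℝ, eig r Ω = Pool.Agent.PLap.lam r Ω :=
    fun hr Ω => Pool.Agent.PLap.lam1_eq hr Ω
  have hR : ∀ Ω : Set Plane, ratio p q Ω = Pool.Agent.PLap.RR p q Ω := fun Ω => by
    unfold ratio Pool.Agent.PLap.RR
    rw [e2 hp, e2 hq]
  have hC : C p q = Pool.Agent.PLap.CC p q := by
    unfold C ratio Pool.Agent.PLap.CC
    rw [e1 hp, e1 hq]
  have hfun : ratio p q = Pool.Agent.PLap.RR p q := funext hR
  obtain ⟨ha, hb, hc⟩ := Pool.Agent.PLap.all_parts hq hqp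
  rw [hfun, hC]
  refine ⟨ha, ⟨hb.1, fun Ω hΩ => (hb.2 Ω hΩ).ne⟩, hc, fun a b hab => ⟨?_, ?_, ?_⟩,
    fun Ω hΩ => ⟨?_, ?_⟩⟩
  · unfold ratio
    rw [e1 hp, e1 hq, Pool.Agent.PLap.CC_eq hq hp, Pool.Agent.PLap.lam_interval_rpow hp hab,
      Pool.Agent.PLap.lam_interval_rpow hq hab]
    have h1 := Pool.Agent.PLap.Tp_pos hp one_pos
    have h2 := Pool.Agent.PLap.Tp_pos hq one_pos
    have h3 : b - a ≠ 0 := (sub_pos.mpr hab).ne'
    field_simp
  · rw [e1 hp, Pool.Agent.PLap.lam_interval hp hab]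
    have h1 := Pool.Agent.PLap.Tp_pos hp one_pos
    have h3 : 0 < b - a := sub_pos.mpr hab
    positivity
  · rw [e1 hq, Pool.Agent.PLap.lam_interval hq hab]
    have h1 := Pool.Agent.PLap.Tp_pos hq one_pos
    have h3 : 0 < b - a := sub_pos.mpr hab
    positivity
  · rw [e2 hp]; exact Pool.Agent.PLap.lam_pos hp hΩ
  · rw [e2 hq]; exact Pool.Agent.PLap.lam_pos hq hΩ

end Pool.Agent.Results.MP_d18ab3_an.PLapRatio
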